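import Pool.Agent.Y759.DS.Brk

/-! MP_a57f33_nt: the equality `g = dm` modulo the elements of `dm` all of whose words have at least
three (odd weight), respectively four (even weight) letters `x₀`, for the motivic Lie algebra `g`, and
the relations between words with few letters `x₀`. -/

set_option autoImplicit false

namespace Pool.Agent.Results.MP_a57f33_nt.LowLetterEquality

open Pool.Agent.H777R4.DM

/-- All words of `ψ` have length `N`. -/
def Hom (ψ : A) (N : ℕ) : Prop := ∀ u, co ψ u ≠ 0 → u.length = N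

/-- The listed properties of a subspace `g` of `dm`; the motivic Lie algebra has all of them. -/
structure Motivic (g : Submodule ℚ A) : Prop where
  /-- `g` is contained in `dm`. -/
  dm : ∀ ψ ∈ g, IsDM ψ
  /-- `g` is graded by the weight: it contains the homogeneous parts of its elements. -/
  graded : ∀ ψ ∈ g, ∀ N : ℕ, ∃ φ ∈ g, ∀ u, co φ u = if u.length = N then co ψ u else 0
  /-- `g` is closed under the Ihara bracket. -/
  bracket : ∀ ψ ∈ g, ∀ φ ∈ g, ihara ψ φ ∈ g
  /-- Duality: `ψ(x₀, x₁) + ψ(-x₁, -x₀) = 0` for `ψ ∈ g`. -/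
  duality : ∀ ψ ∈ g, ∀ u, co ψ (u.map fun i => 1 - i) = (-1) ^ (u.length + 1) * co ψ u
  /-- `g` contains in each odd weight `N ≥ 3` an element of depth one. -/
  gen : ∀ N, Odd N → 3 ≤ N → ∃ σ ∈ g, Hom σ N ∧ co σ (List.replicate (N - 1) 0 ++ [1]) ≠ 0

/-- The least number of letters `x₀` in a word that the theorem does not reach. -/
def bound (N : ℕ) : ℕ := if Even N then 4 else 3

theorem odd_case {g : Submodule ℚ A} (hg : Motivic g) {N : ℕ} (hN : Odd N) {ψ : A} (h : IsDM ψ)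
    (hψ : Hom ψ N) : ∃ φ ∈ g, Hom φ N ∧ ∀ u, co (ψ - φ) u ≠ 0 → 3 ≤ u.count 0 := by
  by_cases h3 : 3 ≤ N
  · obtain ⟨σ, hσ, h1, h2⟩ := hg.gen N hN h3
    obtain ⟨φ, a, _, b, c⟩ := Y759.DS.odd_sum g hN h3 ⟨σ, hσ, hg.dm σ hσ, h1, h2⟩ h hψ
    exact ⟨φ, a, b, c⟩
  · refine ⟨0, g.zero_mem, fun u hu => absurd (co_zero u) hu, fun u hu => ?_⟩
    rw [sub_zero] at hu
    have := (taskSmall_proof taskTwoB Pool.Agent.H352.DSH.taskTwoC ψ h u hu).1
    have := hψ u hu
    omega

theorem even_case {g : Submodule ℚ A} (hg : Motivic g) {N : ℕ} (hN : Even N) {ψ : A} (h : IsDM ψ)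
    (hψ : Hom ψ N) : ∃ φ ∈ g, Hom φ N ∧ ∀ u, co (ψ - φ) u ≠ 0 → 4 ≤ u.count 0 := by
  have hs : ∀ ψ : A, IsDM ψ → ∀ u, co ψ u ≠ 0 → 1 ≤ u.count 1 := fun ψ h u hu =>
    (taskSmall_proof taskTwoB Pool.Agent.H352.DSH.taskTwoC ψ h u hu).2
  obtain ⟨φ, a, _, b, c⟩ := Y759.DS.even_sum g hg.dm hN (by
    intro p hp h2 hp2
    have hq : Even (N - 2 - p) := by
      obtain ⟨k, hk⟩ := hN
      obtain ⟨l, hl⟩ := hp
      exact ⟨k - 1 - l, by omega⟩
    obtain ⟨σ, hσ, s1, s2⟩ := hg.gen (p + 1) hp.add_one (by omega)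
    obtain ⟨ρ, hρ, r1, r2⟩ := hg.gen (N - 2 - p + 1) hq.add_one (by omega)
    rw [Nat.add_sub_cancel] at s2 r2
    obtain ⟨τ, hτ, t1⟩ := hg.graded _ (hg.bracket σ hσ ρ hρ) N
    refine ⟨τ, hτ, ?_, _, mul_ne_zero (neg_ne_zero.2 s2) r2, ?_⟩
    · intro u hu
      by_contra hne
      rw [t1, if_neg hne] at hu
      exact hu rfl
    · intro i j hj hij
      have e0 := hg.duality τ hτ (Y759.DS.ww i j)
      have e1 : (Y759.DS.ww i j).map (fun i => 1 - i)
          = 0 :: (List.replicate i 1 ++ 0 :: List.replicate j 1) := by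
        unfold Y759.DS.ww
        simp
      have hl : (Y759.DS.ww i j).length = N := by
        rw [Y759.DS.ww_len]
        omega
      rw [e1, hl, hN.add_one.neg_one_pow, t1 (Y759.DS.ww i j), if_pos hl,
        Y759.DS.ihara_coeff (hg.dm σ hσ) (hg.dm ρ hρ) hs hp hq s1 r1 hj (by omega)] at e0
      rw [e0]
      ring) h hψ
  exact ⟨φ, a, b, c⟩

/-- Let `g` be a subspace of `dm` with the properties of `Motivic`.

Each element of `dm` of weight `N` is the sum of an element of `g` of weight `N` and of an element of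
`dm` all of whose words have at least three (if `N` is odd), respectively at least four (if `N` is
even) letters `x₀`.

If a rational linear combination of the coefficients at words of weight `N`, each with at most two
(if `N` is odd), respectively at most three (if `N` is even) letters `x₀`, vanishes on `g`, then it
vanishes on `dm`. -/
theorem result (g : Submodule ℚ A) (hg : Motivic g) (N : ℕ) :
    (∀ ψ, IsDM ψ → Hom ψ N → ∃ φ ∈ g, Hom φ N ∧ IsDM (ψ - φ) ∧
      ∀ u, co (ψ - φ) u ≠ 0 → bound N ≤ u.count 0) ∧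
    ∀ (S : Finset (List (Fin 2))) (c : List (Fin 2) → ℚ),
      (∀ u ∈ S, u.length = N ∧ u.count 0 < bound N) →
      (∀ φ ∈ g, ∑ u ∈ S, c u * co φ u = 0) → ∀ ψ, IsDM ψ → ∑ u ∈ S, c u * co ψ u = 0 := by
  have key : ∀ ψ, IsDM ψ → Hom ψ N → ∃ φ ∈ g, Hom φ N ∧ IsDM (ψ - φ) ∧
      ∀ u, co (ψ - φ) u ≠ 0 → bound N ≤ u.count 0 := by
    intro ψ h hψ
    have hd : ∀ φ ∈ g, IsDM (ψ - φ) := by
      intro φ hφ
      have := isDM_sub (hg.dm φ hφ) h 1
      rwa [one_smul] at this
    rcases Nat.even_or_odd N with hN | hN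
    · rw [bound, if_pos hN]
      obtain ⟨φ, h1, h2, h3⟩ := even_case hg hN h hψ
      exact ⟨φ, h1, h2, hd φ h1, h3⟩
    · rw [bound, if_neg (Nat.not_even_iff_odd.2 hN)]
      obtain ⟨φ, h1, h2, h3⟩ := odd_case hg hN h hψ
      exact ⟨φ, h1, h2, hd φ h1, h3⟩
  refine ⟨key, fun S c hS hc ψ h => ?_⟩
  have h1 := Pool.Agent.H217R3.DMC.taskComp ψ N h
  obtain ⟨φ, hφ, -, -, h2⟩ := key (comp N ψ) h1 (fun u hu => by
    by_contra hne
    rw [co_comp, if_neg hne] at hu
    exact hu rfl)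
  rw [← hc φ hφ]
  refine Finset.sum_congr rfl fun u hu => ?_
  obtain ⟨h3, h4⟩ := hS u hu
  have h5 : co (comp N ψ - φ) u = 0 := by
    by_contra hne
    exact absurd (h2 u hne) (not_le.2 h4)
  rw [co_sub, co_comp, if_pos h3, sub_eq_zero] at h5
  rw [h5]

end Pool.Agent.Results.MP_a57f33_nt.LowLetterEquality
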